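import Mathlib

namespace Pool.Agent.Results.MP_b3a441_al.Cover

universe u

/-- A Steiner loop structure: identity `e`, `xy = yx` and `x(xy) = y`. -/
structure SteinerLoop (X : Type u) where
  mul : X → X → X
  e : X
  e_mul : ∀ x, mul e x = x
  comm : ∀ x y, mul x y = mul y x
  cancel : ∀ x y, mul x (mul x y) = y

/-- The subloop generated by `x, y, z`. -/
def SteinerLoop.gen {X : Type u} (L : SteinerLoop X) (x y z : X) : Set X :=
  {a | ∀ S : Set X, L.e ∈ S → x ∈ S → y ∈ S → z ∈ S →
    (∀ s ∈ S, ∀ t ∈ S, L.mul s t ∈ S) → a ∈ S}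

/-- Associativity propagates. -/
def SteinerLoop.Propagates {X : Type u} (L : SteinerLoop X) : Prop :=
  ∀ x y z, L.mul x (L.mul y z) = L.mul (L.mul x y) z →
    ∀ a ∈ L.gen x y z, ∀ b ∈ L.gen x y z, ∀ c ∈ L.gen x y z,
      L.mul a (L.mul b c) = L.mul (L.mul a b) c

variable {F : Type u} (L : SteinerLoop F)

lemma mul_e (x : F) : L.mul x L.e = x := by rw [L.comm, L.e_mul]
lemma mul_self (x : F) : L.mul x x = L.e := by
  have := L.cancel x L.e
  rwa [mul_e] at this
lemma cancel' (x y : F) : L.mul x (L.mul y x) = y := by rw [L.comm y, L.cancel]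
lemma inj {x y z : F} (h : L.mul x y = L.mul x z) : y = z := by
  rw [← L.cancel x y, h, L.cancel]

def line (x y : F) : Set F := {x, y, L.mul x y}

lemma line_comm (x y : F) : line L x y = line L y x := by
  rw [line, line, L.comm, Set.insert_comm]
lemma line_mul (x y : F) : line L x (L.mul x y) = line L x y := by
  rw [line, line, L.cancel, Set.pair_comm]

open Classical in
noncomputable def th (x y : F) : Set F → ZMod 2 :=
  fun T => if L.e ∉ line L x y ∧ T = line L x y then 1 else 0

lemma th_congr {x y u v : F} (h : line L x y = line L u v) : th L x y = th L u v := by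
  unfold th; rw [h]

lemma th_zero {x y : F} (h : L.e ∈ line L x y) : th L x y = 0 := by
  funext T; simp [th, h]

lemma two (a : Set F → ZMod 2) : a + a = 0 := by
  funext T; exact CharTwo.add_self_eq_zero _

noncomputable def cover : SteinerLoop (F × (Set F → ZMod 2)) where
  mul p q := (L.mul p.1 q.1, p.2 + q.2 + th L p.1 q.1)
  e := (L.e, 0)
  e_mul p := by
    rw [L.e_mul, th_zero L (by simp [line])]; simp
  comm p q := by rw [L.comm, th_congr L (line_comm L _ _), add_comm p.2]
  cancel p q := by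
    refine Prod.ext (L.cancel _ _) ?_
    simp only [th_congr L (line_mul L _ _)]
    have h1 := two p.2
    have h2 := two (th L p.1 q.1)
    linear_combination h1 + h2

def V (p q : F) : Set F := {L.e, p, q, L.mul p q}

lemma V_facts (p q : F) : (∀ u ∈ V L p q, ∀ v ∈ V L p q, L.mul u v ∈ V L p q) ∧
    (∀ u ∈ V L p q, ∀ v ∈ V L p q, ∀ w ∈ V L p q, L.mul u (L.mul v w) = L.mul (L.mul u v) w) ∧
    ∀ u ∈ V L p q, ∀ v ∈ V L p q, L.e ∉ line L u v → line L u v = line L p q := by
  obtain ⟨r, hr⟩ : ∃ r, L.mul p q = r := ⟨_, rfl⟩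
  have f1 : L.mul q p = r := by rw [L.comm, hr]
  have f2 : L.mul p r = q := by rw [← hr, L.cancel]
  have f3 : L.mul r p = q := by rw [L.comm, f2]
  have f4 : L.mul q r = p := by rw [← f1, L.cancel]
  have f5 : L.mul r q = p := by rw [L.comm, f4]
  simp only [V, line, hr, Set.mem_insert_iff, Set.mem_singleton_iff]
  refine ⟨fun u hu v hv => ?_, fun u hu v hv w hw => ?_, fun u hu v hv h => ?_⟩
  · rcases hu with hu | hu | hu | hu <;> rcases hv with hv | hv | hv | hv <;>
      simp only [hu, hv, hr, f1, f2, f3, f4, f5, L.e_mul, mul_e, mul_self, true_or, or_true]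
  · rcases hu with hu | hu | hu | hu <;> rcases hv with hv | hv | hv | hv <;>
      rcases hw with hw | hw | hw | hw <;>
      simp only [hu, hv, hw, hr, f1, f2, f3, f4, f5, L.e_mul, mul_e, mul_self]
  · rcases hu with hu | hu | hu | hu <;> rcases hv with hv | hv | hv | hv <;>
      simp only [hu, hv, hr, f1, f2, f3, f4, f5, L.e_mul, mul_e, mul_self, true_or, or_true,
        not_true_eq_false] at h ⊢ <;>
      (ext t; simp only [Set.mem_insert_iff, Set.mem_singleton_iff]; tauto)

open Classical in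
lemma th_cob (p q : F) : ∃ g : F → Set F → ZMod 2, ∀ u ∈ V L p q, ∀ v ∈ V L p q,
    th L u v = g u + g v + g (L.mul u v) := by
  refine ⟨fun u => if u = L.e then 0 else th L p q, fun u hu v hv => ?_⟩
  by_cases h : L.e ∈ line L u v
  · rw [th_zero L h]
    rcases h with h | h | h
    · subst h; simp [L.e_mul, two]
    · subst h; simp [mul_e, two]
    · have : u = v := inj L (x := u) (by rw [mul_self]; exact h)
      subst this; simp [mul_self, two]
  · rw [th_congr L ((V_facts L p q).2.2 u hu v hv h)]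
    simp only [line, Set.mem_insert_iff, Set.mem_singleton_iff, not_or] at h
    simp only [if_neg (Ne.symm h.1), if_neg (Ne.symm h.2.1), if_neg (Ne.symm h.2.2), two, zero_add]

lemma small {x y z : F}
    (h : th L y z + th L x (L.mul y z) = th L x y + th L (L.mul x y) z) :
    ∃ p q, x ∈ V L p q ∧ y ∈ V L p q ∧ z ∈ V L p q := by
  by_cases h1 : x ∈ V L y z
  · exact ⟨y, z, h1, by simp [V], by simp [V]⟩
  by_cases h2 : L.e ∈ line L y z
  · rcases h2 with h2 | h2 | h2
    · exact ⟨x, z, by simp [V], by simp [V, h2], by simp [V]⟩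
    · exact ⟨x, y, by simp [V], by simp [V], Or.inl (Set.mem_singleton_iff.1 h2).symm⟩
    · have : y = z := inj L (x := y) (by rw [mul_self]; exact h2)
      exact ⟨x, y, by simp [V], by simp [V], by simp [V, this]⟩
  exfalso
  have hx : x ∉ line L y z := fun h => h1 (Or.inr h)
  have hxy : L.mul x y ∉ line L y z := by
    rintro (h | h | h)
    · exact h1 (Or.inl (inj L (x := y) (by rw [L.comm, h, mul_e])))
    · refine h1 (Or.inr (Or.inr (Or.inr ?_)))
      rw [← h, cancel']; rfl
    · refine h1 (Or.inr (Or.inr (Or.inl (inj L (x := y) ?_))))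
      rw [L.comm]; exact h
  have k : ∀ a b, a ∉ line L y z → th L a b (line L y z) = 0 := by
    intro a b ha
    refine if_neg fun h => ha ?_
    rw [h.2]; simp [line]
  have := congrFun h (line L y z)
  simp only [Pi.add_apply, k _ _ hx, k _ _ hxy] at this
  simp [th, h2] at this

theorem result (F : Type u) (L : SteinerLoop F) : ∃ (X : Type u) (M : SteinerLoop X) (f : X → F),
    M.Propagates ∧ Function.Surjective f ∧ (∀ a b, f (M.mul a b) = L.mul (f a) (f b)) ∧
      (Finite F → Finite X) := by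
  refine ⟨F × (Set F → ZMod 2), cover L, Prod.fst, ?_, Prod.fst_surjective, fun _ _ => rfl,
    fun _ => inferInstance⟩
  intro x y z h
  have h2 : x.2 + (y.2 + z.2 + th L y.1 z.1) + th L x.1 (L.mul y.1 z.1) =
      x.2 + y.2 + th L x.1 y.1 + z.2 + th L (L.mul x.1 y.1) z.1 := congrArg Prod.snd h
  obtain ⟨p, q, hx, hy, hz⟩ := small L (x := x.1) (y := y.1) (z := z.1) (by linear_combination h2)
  obtain ⟨hc, ha, -⟩ := V_facts L p q
  obtain ⟨g, hg⟩ := th_cob L p q
  have hS : ∀ a ∈ (cover L).gen x y z, a.1 ∈ V L p q := fun a h =>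
    h {s | s.1 ∈ V L p q} (Or.inl rfl) hx hy hz fun s hs t ht => hc _ hs _ ht
  intro a ha' b hb' c hc'
  have h1 := hS a ha'
  have h3 := hS b hb'
  have h4 := hS c hc'
  refine Prod.ext (ha _ h1 _ h3 _ h4) ?_
  show a.2 + (b.2 + c.2 + th L b.1 c.1) + th L a.1 (L.mul b.1 c.1) =
      a.2 + b.2 + th L a.1 b.1 + c.2 + th L (L.mul a.1 b.1) c.1
  rw [hg _ h3 _ h4, hg _ h1 _ (hc _ h3 _ h4), hg _ h1 _ h3, hg _ (hc _ h1 _ h3) _ h4,
    ha _ h1 _ h3 _ h4]
  linear_combination two (g (L.mul b.1 c.1)) - two (g (L.mul a.1 b.1))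

end Pool.Agent.Results.MP_b3a441_al.Cover
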